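import Pool.Agent.FCH.StmtsP2

set_option autoImplicit false

/-!
# Squad FCH, row PAR: the parametrisations of a sequence of valuations (assembly)
-/

namespace Pool.Agent.FCH.H94

open Pool.Agent.LCI Pool.Agent.DFO Pool.Agent.QMA Pool.Agent.UCH Pool.Agent.FCH
open scoped BigOperators

theorem par_le {n : ℕ} (m : Fin n →₀ ℕ) (l : Fin n) : m l ≤ m.sum fun _ e => e := by
  by_cases h : l ∈ m.support
  · exact Finset.single_le_sum (f := fun i => m i) (fun _ _ => Nat.zero_le _) h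
  · rw [Finsupp.notMem_support_iff.1 h]
    exact Nat.zero_le _

/-- Coefficients outside of the box vanish. -/
theorem par_box {k : Type} [Field k] {n D : ℕ} {p : MvPolynomial (Fin n) k}
    (hp : p.totalDegree ≤ D) {m : Fin n →₀ ℕ} (hm : ¬ ∀ l, m l ≤ D) : p.coeff m = 0 := by
  by_contra h
  refine hm fun l => ?_
  exact (par_le m l).trans ((MvPolynomial.le_totalDegree
    (MvPolynomial.mem_support_iff.2 h)).trans hp)

theorem par_lbX {k ι J : Type} [Field k] (b : J → ι → k) (x : ι) : LB b (fun j => b j x) := by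
  refine ⟨MvPolynomial.X x, ?_, fun j => ?_⟩
  · rw [MvPolynomial.totalDegree_X]
  · rw [MvPolynomial.eval_X]

theorem par_lb0 {k ι J : Type} [Field k] (b : J → ι → k) : LB b (fun _ => (0 : k)) := by
  refine ⟨0, ?_, fun j => ?_⟩
  · rw [MvPolynomial.totalDegree_zero]
    exact Nat.zero_le _
  · rw [map_zero]

/-- The coefficients of a family of polynomials of bounded degree are parameters. -/
theorem par_lbc {k ι J : Type} [Field k] {n D : ℕ} (b : J → ι → k)
    (p : J → MvPolynomial (Fin n) k) (hp : ∀ j, (p j).totalDegree ≤ D)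
    (x : (Fin n → Fin (D + 1)) → ι)
    (hx : ∀ j c, b j (x c) = (p j).coeff (Finsupp.equivFunOnFinite.symm fun l => (c l : ℕ)))
    (m : Fin n →₀ ℕ) : LB b (fun j => (p j).coeff m) := by
  by_cases hm : ∀ l, m l ≤ D
  · have e1 : (fun j => (p j).coeff m) =
        fun j => b j (x fun l => ⟨m l, Nat.lt_succ_of_le (hm l)⟩) := by
      funext j
      rw [hx]
      refine congrArg (fun t => (p j).coeff t) ?_
      ext l
      rfl
    rw [e1]
    exact par_lbX b _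
  · have e1 : (fun j => (p j).coeff m) = fun _ => (0 : k) := by
      funext j
      exact par_box (hp j) hm
    rw [e1]
    exact par_lb0 b

theorem par_unique {A : Type} [CommRing A] {x u u' : A} (h : x * u = 1) (h' : x * u' = 1) :
    u = u' := by
  calc u = u * (x * u') := by rw [h', mul_one]
    _ = (x * u) * u' := by ring
    _ = u' := by rw [h, one_mul]

/-- row PAR -/
theorem par (pon : PonStmt) (hex : HexStmt) (mps : MpsStmt) (ser' : SerStmt) (mnv : MnvStmt) :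
    ParStmt := by
  intro k K _ _ _ _ _ n F R₀ hFG hFr E _ e f hf r ε co v z hco hzE hmon hz0
  obtain ⟨D, e₀, Sig, he₀, hSig, hSigN, hpon⟩ := pon k K n F R₀ hFG hFr E e f hf
  choose P β d a γ hP hβ hd1 hdD hγ haD hL hH hT using
    fun j => hpon (v j) (z j) (hzE j) (hmon j) (hz0 j)
  have hN : ∀ j, Nsg (P j) := fun j => hSigN _ (hP j)
  -- the inverses
  have hu1 : ∀ j, ∃ u : PS k n, pu (P j) (γ j) (a j 1) * u = 1 := by
    intro j
    have h4 := ((mps k n (P j) (hN j)).2.2.2 (a j 1) (γ j) (hL j).2).2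
    exact ⟨(pu (P j) (γ j) (a j 1))⁻¹, MvPowerSeries.mul_inv_cancel _ (by
      rw [h4]
      exact (hL j).1)⟩
  choose u hu using hu1
  have hA0 : ∀ j, ∀ i ∈ Finset.Icc 2 (d j),
      MvPowerSeries.constantCoeff (Ai (P j) (γ j) (a j) (u j) i) = 0 := by
    intro j i hi
    rw [Finset.mem_Icc] at hi
    have h4 := ((mps k n (P j) (hN j)).2.2.2 (a j i) (i • γ j)
      (fun γ' hγ' => (hH j i hi.1 hi.2 γ' hγ').1)).2
    have h5 : (a j i).coeff (i • γ j) = 0 := by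
      by_contra h
      exact (hH j i hi.1 hi.2 (i • γ j) (MvPolynomial.mem_support_iff.2 h)).2 rfl
    unfold Ai
    rw [map_mul, map_mul, h4, h5, mul_zero, zero_mul]
  choose y hy0 hy hyu using fun j =>
    hex k n (d j) (Ai (P j) (γ j) (a j) (u j)) (hd1 j) (hA0 j)
  choose T q κ r' hTz hTV hTf using fun j => hT j (u j) (y j) (hu j) (hy0 j) (hy j)
  -- the subsequence
  haveI : Finite Sig := hSig
  let φ : ℕ → ↥Sig × Fin (D + 1) × (Fin n → Fin (D + 1)) × (Fin e → Fin n → Fin (D + 1)) :=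
    fun j => (⟨P j, hP j⟩, ⟨d j, Nat.lt_succ_of_le (hdD j)⟩,
      (fun l => ⟨γ j l, Nat.lt_succ_of_le (hγ j l)⟩),
      fun i l => ⟨κ j i l, Nat.lt_succ_of_le ((hTf j i).2.2.2.1 l)⟩)
  obtain ⟨c0, hc0⟩ := Finite.exists_infinite_fiber φ
  classical
  obtain ⟨σ, hσ⟩ : ∃ σ : ℕ → ℕ, StrictMono σ ∧ ∀ j, φ (σ j) = c0 := by
    haveI : Infinite ↥(φ ⁻¹' {c0}) := hc0
    refine ⟨Nat.orderEmbeddingOfSet (φ ⁻¹' {c0}),
      (Nat.orderEmbeddingOfSet (φ ⁻¹' {c0})).strictMono, fun j => ?_⟩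
    have h : (Nat.orderEmbeddingOfSet (φ ⁻¹' {c0})) j ∈ φ ⁻¹' {c0} := by
      have h2 : (Nat.orderEmbeddingOfSet (φ ⁻¹' {c0})) j ∈
          Set.range (Nat.orderEmbeddingOfSet (φ ⁻¹' {c0})) := ⟨j, rfl⟩
      rw [Nat.orderEmbeddingOfSet_range] at h2
      exact h2
    exact h
  obtain ⟨hσm, hσc⟩ := hσ
  obtain ⟨P0, hP0⟩ : ∃ P0, ∀ j, P (σ j) = P0 :=
    ⟨(c0.1 : Matrix (Fin n) (Fin n) ℕ), fun j => congrArg (fun x => (x.1 :
      Matrix (Fin n) (Fin n) ℕ)) (hσc j)⟩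
  obtain ⟨d0, hd0⟩ : ∃ d0, ∀ j, d (σ j) = d0 :=
    ⟨(c0.2.1 : ℕ), fun j => congrArg (fun x => (x.2.1 : ℕ)) (hσc j)⟩
  obtain ⟨γ0, hγ0⟩ : ∃ γ0, ∀ j, γ (σ j) = γ0 := by
    refine ⟨Finsupp.equivFunOnFinite.symm fun l => (c0.2.2.1 l : ℕ), fun j => ?_⟩
    ext l
    exact congrArg (fun x => (x.2.2.1 l : ℕ)) (hσc j)
  obtain ⟨κ0, hκ0⟩ : ∃ κ0 : Fin e → Fin n →₀ ℕ, ∀ j i, κ (σ j) i = κ0 i := by
    refine ⟨fun i => Finsupp.equivFunOnFinite.symm fun l => (c0.2.2.2 i l : ℕ), fun j i => ?_⟩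
    ext l
    exact congrArg (fun x => (x.2.2.2 i l : ℕ)) (hσc j)
  have hN0 : Nsg P0 := by
    rw [← hP0 0]
    exact hN _
  have hd01 : 1 ≤ d0 := by
    rw [← hd0 0]
    exact hd1 _
  have hd0D : d0 ≤ D := by
    rw [← hd0 0]
    exact hdD _
  have hL0 : ∀ j, Ldg P0 γ0 (a (σ j) 1) := by
    intro j
    rw [← hP0 j, ← hγ0 j]
    exact hL _
  have hH0 : ∀ j, Hig P0 γ0 d0 (a (σ j)) := by
    intro j
    rw [← hP0 j, ← hγ0 j, ← hd0 j]
    exact hH _
  have hq0 : ∀ j i, Ldg P0 (κ0 i) (q (σ j) i) := by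
    intro j i
    rw [← hP0 j, ← hκ0 j i]
    exact (hTf (σ j) i).2.2.1
  -- the parameters
  let I : Type := (Fin (D + 1) × (Fin n → Fin (D + 1))) ⊕ (Fin e × (Fin n → Fin (D + 1))) ⊕
    (Fin e × Fin (D + 1) × (Fin n → Fin (D + 1))) ⊕ Unit ⊕ Fin e ⊕ (Fin n × Fin r)
  haveI : Fintype I := inferInstance
  let eqv : I ≃ Fin (Fintype.card I) := Fintype.equivFin I
  let bI : ℕ → I → k := fun j x =>
    match x with
    | .inl x => (a (σ j) (x.1 : ℕ)).coeff
        (Finsupp.equivFunOnFinite.symm fun l => (x.2 l : ℕ))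
    | .inr (.inl x) => (q (σ j) x.1).coeff
        (Finsupp.equivFunOnFinite.symm fun l => (x.2 l : ℕ))
    | .inr (.inr (.inl x)) => (r' (σ j) x.1 (x.2.1 : ℕ)).coeff
        (Finsupp.equivFunOnFinite.symm fun l => (x.2.2 l : ℕ))
    | .inr (.inr (.inr (.inl _))) => ((a (σ j) 1).coeff γ0)⁻¹
    | .inr (.inr (.inr (.inr (.inl i)))) => ((q (σ j) i).coeff (κ0 i))⁻¹
    | .inr (.inr (.inr (.inr (.inr x)))) => co (σ j) x.1 x.2
  let b : ℕ → Fin (Fintype.card I) → k := fun j x => bI j (eqv.symm x)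
  have hb : ∀ j (x : I), b j (eqv x) = bI j x := by
    intro j x
    show bI j (eqv.symm (eqv x)) = bI j x
    rw [Equiv.symm_apply_apply]
  have hser : ∀ i : Fin e, ∃ (C : ℕ) (G : PS (MvPolynomial (Fin (Fintype.card I)) k) n),
      DBw C G ∧ ∀ j, ∃ u y s g : PS k n,
      pu P0 γ0 (a (σ j) 1) * u = 1 ∧ MvPowerSeries.constantCoeff y = 0 ∧
      hen d0 (Ai P0 γ0 (a (σ j)) u) y = 0 ∧ pu P0 (κ0 i) (q (σ j) i) * s = 1 ∧
      hend d0 (Ai P0 γ0 (a (σ j)) u) y * g = 1 ∧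
      MvPowerSeries.map (MvPolynomial.eval (b j)) G =
        serP P0 d0 (a (σ j)) (r' (σ j) i) u y s g := by
    intro i
    refine ser' k (Fin (Fintype.card I)) ℕ n D d0 P0 γ0 (κ0 i) b (fun j => a (σ j))
      (fun j => r' (σ j) i) (fun j => q (σ j) i) (fun j => ((a (σ j) 1).coeff γ0)⁻¹)
      (fun j => ((q (σ j) i).coeff (κ0 i))⁻¹) hN0 hd01 (fun j i' => haD (σ j) i')
      (fun j i' => (hTf (σ j) i).2.1 i') (fun j => (hTf (σ j) i).1) ?_ ?_ ?_ ?_ ?_ ?_ ?_
    · intro i' m hi'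
      exact par_lbc b (fun j => a (σ j) i') (fun j => haD (σ j) i')
        (fun c => eqv (.inl (⟨i', Nat.lt_succ_of_le (hi'.trans hd0D)⟩, c)))
        (fun j c => hb j _) m
    · intro i' m hi'
      exact par_lbc b (fun j => r' (σ j) i i') (fun j => (hTf (σ j) i).2.1 i')
        (fun c => eqv (.inr (.inr (.inl
          (i, ⟨i', Nat.lt_succ_of_le (hi'.le.trans hd0D)⟩, c)))))
        (fun j c => hb j _) m
    · intro m
      exact par_lbc b (fun j => q (σ j) i) (fun j => (hTf (σ j) i).1)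
        (fun c => eqv (.inr (.inl (i, c)))) (fun j c => hb j _) m
    · have e1 : (fun j => ((a (σ j) 1).coeff γ0)⁻¹) =
          fun j => b j (eqv (.inr (.inr (.inr (.inl ()))))) := by
        funext j
        exact (hb j (.inr (.inr (.inr (.inl ()))))).symm
      rw [e1]
      exact par_lbX b _
    · have e1 : (fun j => ((q (σ j) i).coeff (κ0 i))⁻¹) =
          fun j => b j (eqv (.inr (.inr (.inr (.inr (.inl i)))))) := by
        funext j
        exact (hb j (.inr (.inr (.inr (.inr (.inl i)))))).symm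
      rw [e1]
      exact par_lbX b _
    · intro j
      exact ⟨hL0 j, inv_mul_cancel₀ (hL0 j).1, hH0 j⟩
    · intro j
      exact ⟨hq0 j i, inv_mul_cancel₀ (hq0 j i).1⟩
  choose Ci Gi hDB hG using hser
  choose V hV using fun j => (mnv k n (β (σ j)) (hβ (σ j))).1
  refine ⟨σ, Fintype.card I, b, fun l i => eqv (.inr (.inr (.inr (.inr (.inr (l, i)))))),
    ∑ i, Ci i, Gi, fun i => eP P0 (κ0 i + (d0 - 1) • γ0), Matrix.of fun i l => e₀ * P0 i l,
    fun j => β (σ j), fun j => T (σ j), V, hσm, fun j l i => hb j _, ?_, ?_,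
    fun j i => hβ (σ j) i, hV, ?_, ?_, ?_⟩
  · intro i m
    refine (hDB i m).trans (Nat.mul_le_mul_right _ ?_)
    exact Finset.single_le_sum (f := Ci) (fun _ _ => Nat.zero_le _) (Finset.mem_univ i)
  · unfold Nsg at hN0 ⊢
    have e1 : ((Matrix.of fun i l => e₀ * P0 i l).map (Nat.cast : ℕ → ℤ)) =
        (e₀ : ℤ) • (P0.map (Nat.cast : ℕ → ℤ)) := by
      ext i l
      show ((e₀ * P0 i l : ℕ) : ℤ) = (e₀ : ℤ) * ((P0 i l : ℕ) : ℤ)
      push_cast
      rfl
    rw [e1, Matrix.det_smul]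
    refine mul_ne_zero (pow_ne_zero _ ?_) hN0
    have : e₀ ≠ 0 := by omega
    exact_mod_cast this
  · intro j i
    obtain ⟨u', y', s, g, h1, h2, h3, h4, h5, h6⟩ := hG i j
    rw [h6]
    have hu' : u' = u (σ j) := by
      refine par_unique h1 ?_
      rw [← hP0 j, ← hγ0 j]
      exact hu (σ j)
    have hy' : y' = y (σ j) := by
      refine hyu (σ j) y' h2 ?_
      rw [hP0 j, hγ0 j, hd0 j, ← hu']
      exact h3
    have h7 := (hTf (σ j) i).2.2.2.2 s g (by rw [hP0 j, hκ0 j i]; exact h4) (by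
      rw [hP0 j, hγ0 j, hd0 j, ← hu', ← hy']
      exact h5)
    rw [hP0 j, hγ0 j, hd0 j, hκ0 j i, ← hu', ← hy'] at h7
    exact h7
  · intro j l
    rw [hTz (σ j) l, hP0 j]
    refine congrArg (fun t => algebraMap (PS k n) (FPS k n) (wm t)) ?_
    ext i
    show e₀ * (∑ l', (Finsupp.single l 1 : Fin n →₀ ℕ) l' * P0 i l') = e₀ * P0 i l
    rw [Finset.sum_eq_single l]
    · rw [Finsupp.single_eq_same, one_mul]
    · intro l' _ hne
      rw [Finsupp.single_eq_of_ne hne, zero_mul]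
    · intro h
      exact absurd (Finset.mem_univ l) h
  · intro j x hx
    exact hTV (σ j) (V j) (hV j) x hx

end Pool.Agent.FCH.H94
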